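import Mathlib
import Pool.Agent.H361R2.PP.Asm2

/-! Clusters of primes at prescribed places (in units of the logarithm), surrounded by intervals
without primes, for a positive proportion of all integers. -/

open Classical in
theorem Pool.Agent.Results.MP_e87c7d_nt.QuarterOfClusters.result :
    ∀ (k m : ℕ) (α : Fin k → ℝ) (ε Λ : ℝ), 0 < ε → 0 < Λ → (∀ i, 0 ≤ α i ∧ α i + ε ≤ Λ) →
      ∃ c κ : ℝ, 0 < c ∧ 0 < κ ∧ ∃ X₀ : ℕ, ∀ X : ℕ, X₀ ≤ X →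
      c * X ≤ (((Finset.Ico X (2 * X)).filter (fun n : ℕ =>
        k ≤ 4 * (Finset.univ.filter (fun i : Fin k => m ≤ ((Finset.Icc 1 ⌊Λ * Real.log X⌋₊).filter
          (fun a : ℕ => (α i * Real.log X < a ∧ (a : ℝ) ≤ (α i + ε) * Real.log X) ∧
            (n + a).Prime)).card)).card ∧
        (∀ a ∈ Finset.Icc 1 ⌊Λ * Real.log X⌋₊, (n + a).Prime →
          ∃ i, α i * Real.log X < a ∧ (a : ℝ) ≤ (α i + ε) * Real.log X) ∧
        (∀ a ∈ Finset.Icc 1 ⌊Λ * Real.log X⌋₊, ∀ a' ∈ Finset.Icc 1 ⌊Λ * Real.log X⌋₊, a < a' →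
          (n + a).Prime → (n + a').Prime → κ * Real.log X < (a' : ℝ) - a))).card : ℝ) := by
  intro k m α ε Λ hε hΛ hα
  obtain ⟨c, κ, hc, hκ, X₀, h⟩ := Pool.Agent.H361R2.PP.masterU k m α ε Λ hε hΛ hα
  refine ⟨c, κ, hc, hκ, X₀, fun X hX => (h X hX).trans (Nat.cast_le.2 (Finset.card_le_card ?_))⟩
  intro n hn
  rw [Finset.mem_filter] at hn ⊢
  obtain ⟨h1, ⟨h2, h3⟩, h4⟩ := hn
  refine ⟨h1, ?_, h3, h4⟩
  refine h2.trans (Nat.mul_le_mul_left _ (Finset.card_le_card ?_))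
  intro i hi
  rw [Finset.mem_filter] at hi ⊢
  refine ⟨hi.1, hi.2.trans (Finset.card_le_card ?_)⟩
  intro a ha
  rw [Finset.mem_filter] at ha ⊢
  exact ha
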