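import Mathlib
import Pool.Agent.H410R2.ENFin

set_option autoImplicit false

namespace Pool.Agent.Results.MP_e87c7d_nt.PrimesAvoidingShifts

/-- For every real `C` there are `c > 0` and `N₀` such that for every `N ≥ N₀` and every finite set
`A` of nonzero integers in `[-N, N]` with `∑_{a ∈ A} |a| / φ(|a|) ≤ C log N`, at least
`c N / log N` of the primes `p < N` have `|p - a|` not prime for every `a ∈ A`. -/
theorem result : ∀ C : ℝ, ∃ c : ℝ, 0 < c ∧ ∃ N₀ : ℕ, ∀ N : ℕ, N₀ ≤ N → ∀ A : Finset ℤ,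
    (∀ a ∈ A, |a| ≤ N ∧ a ≠ 0) →
    ∑ a ∈ A, ((a.natAbs : ℝ) / (Nat.totient a.natAbs : ℝ)) ≤ C * Real.log N →
    c * (N / Real.log N) ≤ (((Finset.range N).filter
      (fun p : ℕ => p.Prime ∧ ∀ a ∈ A, ¬ ((p : ℤ) - a).natAbs.Prime)).card : ℝ) :=
  Pool.Agent.H410R2.EN.pFinal

end Pool.Agent.Results.MP_e87c7d_nt.PrimesAvoidingShifts
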