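import Mathlib
import Pool.Agent.H362R2.QT.Fin2

/-!
The Hardy-Littlewood prime `r`-tuples conjecture: inside an arbitrary set `A` of at least `lam * log N` integers, `lam > 0`
arbitrarily small, the proportion `4 ^ (1 - r) - ε` of the `r`-element patterns (measured by the singular series)
satisfies the conjectured lower bound up to a constant.
-/

namespace Pool.Agent.Results.MP_e87c7d_nt.QuarterAtEveryScale
open Finset Pool.Agent.H387R2.Uni Pool.Agent.H387R2.MB

open Classical in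
theorem result :
    (∀ T : Finset ℕ, HasProd (fun p : Nat.Primes => locT T p) (CT T) ∧ (Adm T → 0 < CT T)) ∧
    ∀ k : ℕ, 1 ≤ k → ∀ ε : ℝ, 0 < ε → ∀ lam : ℝ, 0 < lam → ∃ κ : ℝ, 0 < κ ∧
      ∀ q : ℕ, 1 ≤ q → ∀ C : ℝ, ∃ N₀ : ℕ, ∀ N : ℕ, N₀ ≤ N →
        ∀ (c : ℕ) (A : Finset ℕ), (∀ a ∈ A, a ≡ c [MOD q]) →
          (∀ a ∈ A, (a : ℝ) ≤ Real.log N ^ C) → lam * ((Nat.totient q : ℝ) / q) * Real.log N ≤ A.card →
          κ * ((q : ℝ) / Nat.totient q) ^ k * (A.card : ℝ) ^ (k + 1) ≤ ∑ T ∈ A.powersetCard (k + 1), CT T ∧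
          ((1 / 4 : ℝ) ^ k - ε) * ∑ T ∈ A.powersetCard (k + 1), CT T ≤
            ∑ T ∈ (A.powersetCard (k + 1)).filter (fun T => κ * CT T * (N / Real.log N ^ (k + 1)) ≤ piN N T), CT T := by
  refine ⟨fun T => ⟨CT_hasProd T, fun hT => ?_⟩, fun k hk ε hε lam hlam => ?_⟩
  · rw [← CT_en]
    apply Pool.Agent.H386R2.HL.singularSeries_pos (en_inj T)
    intro p hp
    rw [nu_en]
    exact hT p hp
  · obtain ⟨κ1, hκ1, h1⟩ := everyScale k hlam
    obtain ⟨κ2, hκ2, h2⟩ := Pool.Agent.H362R2.QT.fin_holds k ε lam hk hε hlam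
    refine ⟨min κ1 κ2, lt_min hκ1 hκ2, fun q hq C => ?_⟩
    obtain ⟨N1, hN1⟩ := h1 q hq C
    obtain ⟨N2, hN2⟩ := h2 q hq C
    refine ⟨max N1 N2, fun N hN c A hAc hA hcard => ⟨?_, ?_⟩⟩
    · refine le_trans ?_ (hN1 N (le_trans (le_max_left _ _) hN) c A hAc hA hcard).1
      have : 0 ≤ ((q : ℝ) / Nat.totient q) ^ k := by positivity
      exact mul_le_mul_of_nonneg_right (mul_le_mul_of_nonneg_right (min_le_left _ _) this) (pow_nonneg (Nat.cast_nonneg _) _)
    · refine (hN2 N (le_trans (le_max_right _ _) hN) c A hAc hA hcard).trans ?_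
      apply sum_le_sum_of_subset_of_nonneg
      · intro T hT
        rw [mem_filter] at hT ⊢
        refine ⟨hT.1, le_trans ?_ hT.2⟩
        have k1 := CT_nonneg T
        have k2 : (0:ℝ) ≤ N / Real.log N ^ (k + 1) := div_nonneg (Nat.cast_nonneg _) (pow_nonneg (Real.log_natCast_nonneg N) _)
        exact mul_le_mul_of_nonneg_right (mul_le_mul_of_nonneg_right (min_le_right _ _) k1) k2
      · intro T _ _
        exact CT_nonneg T

end Pool.Agent.Results.MP_e87c7d_nt.QuarterAtEveryScale
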